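import Pool.Agent.W_MP_21427b_al.Final

/-!
The ideal of relations of the associated Lie ring of the free Burnside group of exponent nine is
not fully invariant, for every rank (finite or infinite) at least four.

The definitions used are in `Pool/Agent/W_MP_21427b_al/Def.lean`.
-/

namespace Pool.Agent.Results.MP_21427b_al.NotFullyInvariant

open Pool.Agent.W_MP_21427b_al

universe u v

/-- Let `X` be a set with at least four elements. The associated Lie ring of the free Burnside
group of exponent nine on `X` exists, and for every Lie ring `M` which is this associated Lie ring,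
the kernel of the canonical homomorphism from the free Lie ring on `X` onto `M` is not fully
invariant. -/
theorem result (X : Type u) (e : Fin 4 ↪ X) :
    (∃ (M : Type u) (_ : LieRing M), Nonempty (AssocLieOf (Burnside 9 X) M)) ∧
    ∀ (M : Type v) [LieRing M] (S : AssocLieOf (Burnside 9 X) M),
      ¬ FullyInv {v : FreeLieAlgebra ℤ X | canon S v = 0} := by
  refine ⟨⟨AssocLie (Burnside 9 X), assocLieRing _, ⟨assocStr (Burnside 9 X)⟩⟩, ?_⟩
  intro M _ S h
  have h1 : canon S (rel12 X e) = 0 := (canon_eq_zero S _).mpr (rel12_mem X e)
  have h2 : canon S (sub X e (rel12 X e)) = 0 := h (sub X e) _ h1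
  exact sub_rel12_not_mem X e ((canon_eq_zero S _).mp h2)

end Pool.Agent.Results.MP_21427b_al.NotFullyInvariant
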